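import Pool.Agent.SolTer.First

set_option autoImplicit false

/-!
Question 1 of the problem: divisibility of the Poincaré polynomials under restriction does not
imply divisibility of the Hilbert series of the Solomon-Terao algebras.
-/

open MvPolynomial

namespace Pool.Agent.Results.MP_1e7c4a_ag.RestrictionFails

open Pool.Agent.SolTer

universe u

/-- Over every algebraically closed field `K` of characteristic zero there are an arrangement `A`
in `K⁴`, a member `H` of it (the image of `ι`) and a form `η ∈ U₂(A)` such that the Poincaré
polynomial of `Aᴴ` divides the one of `A`, while the Hilbert series of `ST(Aᴴ, η|_H)` does not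
divide the Hilbert series of `ST(A, η)`. -/
theorem result (K : Type u) [Field K] [IsAlgClosed K] [CharZero K] :
    ∃ (A : Set (Submodule K (Fin 4 → K))) (ι : (Fin 3 → K) →ₗ[K] (Fin 4 → K))
      (η : MvPolynomial (Fin 4) K),
      IsArrangement A ∧ Function.Injective ι ∧ LinearMap.range ι ∈ A ∧ η ∈ formsU 2 A ∧
      poincare (restrict ι A) ∣ poincare A ∧
      ¬ hilb (stIdeal (restrict ι A) (pullback ι η)) ∣ hilb (stIdeal A η) :=
  First.first K

end Pool.Agent.Results.MP_1e7c4a_ag.RestrictionFails
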